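import Pool.Agent.H64.FTM.Targets

/-!
# CUT: the projection at one place
-/

set_option autoImplicit false

open Matrix Pool.Agent.H64.CC Pool.Agent.H2.NL Pool.Agent.H2.KM Pool.Agent.H64.EV
  Pool.Agent.H64.FTM
open Pool.Agent.H64.EK hiding kap

namespace Pool.Agent.H66.FTM

/-- the projection at the first place, on words -/
theorem cut_word {K : Type} [Field K] {J E : Type} [Fintype J] [DecidableEq J]
    [Fintype E] [DecidableEq E] (F : OForm K J) (G : OForm K E) (t : List (J ⊕ E) → K)
    (a : J ⊕ E) (w : List (J ⊕ E)) :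
    con (osum F G).η 1 (tp 2 (two (Om F E)) t) (a :: w) =
      if a.isLeft = true then t (a :: w) else 0 := by
  have hc := (osum F G).con_append [a] (tp 2 (two (Om F E)) t) w
  have hc' : con (osum F G).η 1 (tp 2 (two (Om F E)) t) (a :: w) =
      ∑ b, (osum F G).c b * (Om F E a b * t ((osum F G).st b :: w)) := hc
  rw [hc', Fintype.sum_sum_type]
  cases a with
  | inr e =>
    rw [Finset.sum_eq_zero fun b _ => ?_, Finset.sum_eq_zero fun b _ => ?_]
    · simp
    · have : Om F E (Sum.inr e) (Sum.inr b) = 0 := by simp [Om]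
      rw [this, zero_mul, mul_zero]
    · have : Om F E (Sum.inr e) (Sum.inl b) = 0 := by simp [Om]
      rw [this, zero_mul, mul_zero]
  | inl p =>
    have h2 : ∑ b : E, (osum F G).c (Sum.inr b) * (Om F E (Sum.inl p) (Sum.inr b) *
        t ((osum F G).st (Sum.inr b) :: w)) = 0 := by
      refine Finset.sum_eq_zero fun b _ => ?_
      have : Om F E (Sum.inl p) (Sum.inr b) = 0 := by simp [Om]
      rw [this, zero_mul, mul_zero]
    rw [h2, add_zero, Finset.sum_eq_single (F.st p)]
    · have h3 : Om F E (Sum.inl p) (Sum.inl (F.st p)) = (F.c (F.st p))⁻¹ := by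
        simp [Om, OForm.ω]
      have h4 : (osum F G).c (Sum.inl (F.st p)) = F.c (F.st p) := rfl
      have h5 : (osum F G).st (Sum.inl (F.st p)) = Sum.inl p := by
        show Sum.inl (F.st (F.st p)) = _
        rw [F.st_st]
      rw [h3, h4, h5, ← mul_assoc, mul_inv_cancel₀ (F.c_ne _), one_mul]
      simp
    · intro b _ hb
      have : Om F E (Sum.inl p) (Sum.inl b) = 0 := by simp [Om, OForm.ω, hb]
      rw [this, zero_mul, mul_zero]
    · intro h
      exact absurd (Finset.mem_univ _) h

theorem pf_CUT (hKAP : T_KAP) (hAFA : T_AFA) : T_CUT := by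
  intro K _ _ J E _ _ _ _ F G A hM k j f hf
  have hpos : 0 < 2 * k := lt_of_le_of_lt (Nat.zero_le _) j.2
  -- the first place
  have h0 : ∀ f ∈ Af A k,
      (fun w => if (w (⟨0, hpos⟩ : Fin (2 * k))).isLeft = true then f w else 0) ∈ Af A k := by
    rintro f ⟨t, ht, rfl⟩
    refine ⟨con (osum F G).η 1 (tp 2 (two (Om F E)) t), ?_, ?_⟩
    · have h1 := hM.calculus.tp 1 k _ _ hM.omR ht
      rw [Nat.add_comm] at h1
      exact hM.calculus.con k 1 _ h1 (by omega)
    · funext w
      show con (osum F G).η 1 (tp 2 (two (Om F E)) t) (List.ofFn w) = _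
      have hl : (List.ofFn w).length = 2 * k := List.length_ofFn
      have h2 : (List.ofFn w)[0]'(by rw [hl]; exact hpos) = w ⟨0, hpos⟩ := by simp
      show _ = if (w (⟨0, hpos⟩ : Fin (2 * k))).isLeft = true then t (List.ofFn w) else 0
      rw [← h2]
      generalize hL : List.ofFn w = L at hl h2 ⊢
      cases L with
      | nil => simp at hl; omega
      | cons a L => exact cut_word F G t a L
  obtain ⟨k1, k2, -, -⟩ := hKAP K (J ⊕ E) (osum F G).o (2 * k)
  obtain ⟨-, a2⟩ := hAFA K (J ⊕ E) (osum F G).o (osum F G).η (osum F G).ω A hM.calculus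
  have h1 := a2 k (Equiv.swap ⟨0, hpos⟩ j) _ (h0 _ (a2 k (Equiv.swap ⟨0, hpos⟩ j) f hf))
  have h2 : ac (osum F G).o (Equiv.swap ⟨0, hpos⟩ j) (fun w =>
      if (w (⟨0, hpos⟩ : Fin (2 * k))).isLeft = true then
        ac (osum F G).o (Equiv.swap ⟨0, hpos⟩ j) f w else 0) =
      fun w => if (w j).isLeft = true then f w else 0 := by
    funext w
    show kap (osum F G).o (Equiv.swap ⟨0, hpos⟩ j) w *
      (if (w (Equiv.swap ⟨0, hpos⟩ j ⟨0, hpos⟩)).isLeft = true then
        kap (osum F G).o (Equiv.swap ⟨0, hpos⟩ j)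
            (fun i => w (Equiv.swap ⟨0, hpos⟩ j i)) *
          f (fun i => w (Equiv.swap ⟨0, hpos⟩ j (Equiv.swap ⟨0, hpos⟩ j i))) else 0) = _
    rw [Equiv.swap_apply_left]
    split_ifs with h
    · rw [← mul_assoc, ← k1, Equiv.swap_mul_self, k2, one_mul]
      simp only [Equiv.swap_apply_self]
    · rw [mul_zero]
  rw [← h2]
  exact h1

end Pool.Agent.H66.FTM
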