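import Pool.Agent.H64.FTM.Targets

/-!
# RAT: the pairings of classes of type `a` are rational
-/

set_option autoImplicit false

open Matrix Pool.Agent.H64.CC Pool.Agent.H2.NL Pool.Agent.H2.KM Pool.Agent.H64.EV
  Pool.Agent.H64.FTM
open Pool.Agent.H64.EK hiding kap

namespace Pool.Agent.H66.FTM

theorem Pr_zero_left {K : Type} [Field K] {I : Type} [Fintype I] [DecidableEq I]
    (F : OForm K I) : ∀ (n : ℕ) (f g : List I → K), (∀ l, l.length = n → f l = 0) →
    F.Pr n f g = 0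
  | 0, f, g, h => by
    show f [] * g [] = 0
    rw [h [] rfl, zero_mul]
  | n + 1, f, g, h => by
    show ∑ a, F.c a * F.Pr n (fun l => f (a :: l)) (fun l => g (F.st a :: l)) = 0
    refine Finset.sum_eq_zero fun a _ => ?_
    rw [Pr_zero_left F n _ _ fun l hl => h (a :: l) (by simp [hl]), mul_zero]

theorem Pr_zero_right {K : Type} [Field K] {I : Type} [Fintype I] [DecidableEq I]
    (F : OForm K I) : ∀ (n : ℕ) (f g : List I → K), (∀ l, l.length = n → g l = 0) →
    F.Pr n f g = 0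
  | 0, f, g, h => by
    show f [] * g [] = 0
    rw [h [] rfl, mul_zero]
  | n + 1, f, g, h => by
    show ∑ a, F.c a * F.Pr n (fun l => f (a :: l)) (fun l => g (F.st a :: l)) = 0
    refine Finset.sum_eq_zero fun a _ => ?_
    rw [Pr_zero_right F n _ _ fun l hl => h (F.st a :: l) (by simp [hl]), mul_zero]

/-- a class of type at least one vanishes on words which begin with a letter of `E` -/
theorem Ty_inr {K : Type} [Field K] {J E : Type} {n a : ℕ} (ha : 1 ≤ a)
    {t : List (J ⊕ E) → K} (h : Ty n a t) (e : E) (l : List (J ⊕ E))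
    (hl : (Sum.inr e :: l : List (J ⊕ E)).length = n) : t (Sum.inr e :: l) = 0 := by
  by_contra h0
  obtain ⟨u, v, hu, hE⟩ := h _ hl h0
  cases u with
  | nil => simp at hu; omega
  | cons b u => simp at hE

theorem pf_RAT (hTYB : T_TYB) (hPRF : T_PRF) (hONN : T_ONN) (hOMC : T_OMC) : T_RAT := by
  intro K _ _ J E _ _ _ _ F G A hM hr k a x y ha hak hx hy hTx hTy
  obtain ⟨x0, hx0, rfl⟩ := hx
  obtain ⟨t, ht, hty⟩ := hy
  have hk : 1 ≤ k := by omega
  obtain ⟨p1, -, -, p4⟩ := hPRF K (J ⊕ E) (osum F G) (2 * k)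
  have hrr : ∀ f : (Fin (2 * k) → J ⊕ E) → K, rvf (rvf f) = f := by
    intro f
    funext w
    show f (fun i => w i.rev.rev) = f w
    simp only [Fin.rev_rev]
  have hy0 : ev (2 * k) (rv t) = y := by
    rw [p4, hty, hrr]
  have hrv : rv (rv t) = t := by
    funext w
    show t w.reverse.reverse = t w
    rw [List.reverse_reverse]
  obtain ⟨b1, -, -⟩ := hTYB K J E (2 * k) a hak
  have hT1 : Ty (2 * k) a x0 := (b1 x0).2 hTx
  have hT2 : Ty (2 * k) a (rv t) := (b1 (rv t)).2 (by rw [hy0]; exact hTy)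
  have hpr : pr (osum F G) (ev (2 * k) x0) y = (osum F G).Pr (2 * k) x0 (rv t) := by
    rw [p1, hy0]
  rw [hpr]
  obtain ⟨n1, -, -⟩ := hONN K (J ⊕ E) (osum F G) (2 * k) x0 (rv t) (by omega)
  rw [← n1]
  have hz1 : ∀ (e : E) (d : J ⊕ E), (osum F G).C1 (2 * k) x0 (rv t) (Sum.inr e) d = 0 := by
    intro e d
    refine Pr_zero_left _ _ _ _ fun l hl => Ty_inr ha hT1 e l ?_
    rw [List.length_cons, hl]
    omega
  have hz2 : ∀ (e : E) (d : J ⊕ E), (osum F G).C1 (2 * k) x0 (rv t) d (Sum.inr e) = 0 := by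
    intro e d
    refine Pr_zero_right _ _ _ _ fun l hl => Ty_inr ha hT2 e l ?_
    rw [List.length_cons, hl]
    omega
  obtain ⟨m1, -⟩ := hOMC K (J ⊕ E) (osum F G) A hM.calculus k x0 (rv t) hk hx0
    (by rw [hrv]; exact ht)
  have hA : two (Matrix.of fun p q : J =>
      (osum F G).C1 (2 * k) x0 (rv t) (Sum.inl p) (Sum.inl q)) ∈ AR A 1 := by
    show ext E _ ∈ A 1
    refine hM.calculus.congr 1 _ _ m1 ?_
    intro w hw
    match w, hw with
    | [Sum.inl p, Sum.inl q], _ => rfl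
    | [Sum.inl p, Sum.inr q], _ =>
      show (0 : K) = (osum F G).C1 (2 * k) x0 (rv t) (Sum.inl p) (Sum.inr q)
      rw [hz2]
    | [Sum.inr p, Sum.inl q], _ =>
      show (0 : K) = (osum F G).C1 (2 * k) x0 (rv t) (Sum.inr p) (Sum.inl q)
      rw [hz1]
    | [Sum.inr p, Sum.inr q], _ =>
      show (0 : K) = (osum F G).C1 (2 * k) x0 (rv t) (Sum.inr p) (Sum.inr q)
      rw [hz1]
  obtain ⟨q, hq⟩ := hr _ hA
  refine ⟨q, ?_⟩
  rw [← hq]
  have hc := F.con_append [] (two (Matrix.of fun p q : J =>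
      (osum F G).C1 (2 * k) x0 (rv t) (Sum.inl p) (Sum.inl q))) []
  have hc' : con F.η 0 (two (Matrix.of fun p q : J =>
      (osum F G).C1 (2 * k) x0 (rv t) (Sum.inl p) (Sum.inl q))) [] =
      ∑ a, F.c a * (osum F G).C1 (2 * k) x0 (rv t) (Sum.inl a) (Sum.inl (F.st a)) := hc
  rw [hc', Fintype.sum_sum_type]
  have h0 : ∑ e : E, (osum F G).c (Sum.inr e) *
      (osum F G).C1 (2 * k) x0 (rv t) (Sum.inr e) ((osum F G).st (Sum.inr e)) = 0 :=
    Finset.sum_eq_zero fun e _ => by rw [hz1, mul_zero]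
  rw [h0, add_zero]
  rfl

end Pool.Agent.H66.FTM
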