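import Pool.Agent.H64.FTM.Targets

/-!
# TYB: types
-/

set_option autoImplicit false

open Matrix Pool.Agent.H64.CC Pool.Agent.H2.NL Pool.Agent.H2.KM Pool.Agent.H64.EV
  Pool.Agent.H64.FTM
open Pool.Agent.H64.EK hiding kap

namespace Pool.Agent.H66.FTM

theorem left_map {J E : Type} : ∀ w : List (J ⊕ E), (∀ a ∈ w, a.isLeft = true) →
    ∃ u : List J, w = u.map Sum.inl
  | [], _ => ⟨[], rfl⟩
  | Sum.inl a :: w, h => by
    obtain ⟨u, hu⟩ := left_map w fun b hb => h b (List.mem_cons_of_mem _ hb)
    exact ⟨a :: u, by rw [hu, List.map_cons]⟩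
  | Sum.inr a :: w, h => by
    have h1 := h (Sum.inr a) List.mem_cons_self
    exact absurd h1 (by simp)

theorem right_map {J E : Type} : ∀ w : List (J ⊕ E), (∀ a ∈ w, a.isLeft = false) →
    ∃ u : List E, w = u.map Sum.inr
  | [], _ => ⟨[], rfl⟩
  | Sum.inr a :: w, h => by
    obtain ⟨u, hu⟩ := right_map w fun b hb => h b (List.mem_cons_of_mem _ hb)
    exact ⟨a :: u, by rw [hu, List.map_cons]⟩
  | Sum.inl a :: w, h => by
    have h1 := h (Sum.inl a) List.mem_cons_self
    exact absurd h1 (by simp)

theorem isLeft_st {K : Type} [Field K] {J E : Type} (F : OForm K J) (G : OForm K E)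
    (a : J ⊕ E) : ((osum F G).st a).isLeft = a.isLeft := by
  cases a <;> rfl

theorem pf_TYB : T_TYB := by
  intro K _ J E _ _ _ _ m a ham
  refine ⟨fun t => ⟨?_, ?_⟩, ?_, ?_⟩
  · intro h w hw i
    obtain ⟨u, v, hu, hE⟩ := h (List.ofFn w) (List.length_ofFn) hw
    have h1 : w i = (List.ofFn w)[i.1]'(by rw [List.length_ofFn]; exact i.2) := by simp
    rw [h1]
    simp only [hE]
    rw [List.getElem_append]
    split_ifs with h2
    · rw [List.getElem_map]
      rw [List.length_map, hu] at h2
      simp [h2]
    · rw [List.getElem_map]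
      rw [List.length_map, hu] at h2
      simp [h2]
  · intro h w hw htw
    have h0 : List.ofFn (fun i : Fin m => w[i.1]'(by rw [hw]; exact i.2)) = w := by
      apply List.ext_getElem
      · rw [List.length_ofFn, hw]
      · intro i h1 h2
        simp
    have h1 := h (fun i : Fin m => w[i.1]'(by rw [hw]; exact i.2)) (by
      show t (List.ofFn _) ≠ 0
      rw [h0]
      exact htw)
    obtain ⟨u, hu⟩ := left_map (w.take a) (by
      intro b hb
      obtain ⟨i, hi, rfl⟩ := List.getElem_of_mem hb
      rw [List.getElem_take]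
      rw [List.length_take] at hi
      have := h1 ⟨i, by omega⟩
      simp only at this
      rw [this, decide_eq_true_eq]
      omega)
    obtain ⟨v, hv⟩ := right_map (w.drop a) (by
      intro b hb
      obtain ⟨i, hi, rfl⟩ := List.getElem_of_mem hb
      rw [List.getElem_drop]
      rw [List.length_drop] at hi
      have := h1 ⟨a + i, by omega⟩
      simp only at this
      rw [this, decide_eq_false_iff_not]
      omega)
    refine ⟨u, v, ?_, ?_⟩
    · have := congrArg List.length hu
      rw [List.length_take, List.length_map, hw] at this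
      omega
    · rw [← hu, ← hv, List.take_append_drop]
  · intro o σ f hσ hf w hw i
    have h1 : f (fun i => w (σ i)) ≠ 0 := by
      intro h
      apply hw
      show _ * f (fun i => w (σ i)) = 0
      rw [h, mul_zero]
    have h2 := hf _ h1 (σ.symm i)
    simp only [Equiv.apply_symm_apply] at h2
    rw [h2]
    have h3 := hσ (σ.symm i)
    rw [Equiv.apply_symm_apply] at h3
    exact (decide_eq_decide.2 h3).symm
  · intro F G f g a' ha' hf hg hne
    unfold pr
    refine Finset.sum_eq_zero fun w _ => ?_
    by_contra h0
    have h1 : f w ≠ 0 := by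
      intro h
      apply h0
      rw [h, mul_zero, zero_mul]
    have h2 : g (fun i => (osum F G).st (w i)) ≠ 0 := by
      intro h
      apply h0
      rw [h, mul_zero]
    have h3 : ∀ i : Fin m, (i.1 < a ↔ i.1 < a') := by
      intro i
      have e1 := hf w h1 i
      have e2 := hg _ h2 i
      rw [isLeft_st, e1] at e2
      exact decide_eq_decide.1 e2
    rcases Nat.lt_or_gt_of_ne hne with h | h
    · have := h3 ⟨a, by omega⟩
      simp only at this
      omega
    · have := h3 ⟨a', by omega⟩
      simp only at this
      omega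

end Pool.Agent.H66.FTM
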